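import Mathlib
import Pool.Agent.N506.EY0

/-!
# Groups which act on a tree: definition
-/

namespace Pool.Agent.U563.TG

open Pool.Agent.N506.EX

universe u

/-- `G` acts on a tree `T` by automorphisms and there is a homomorphism `π` of `G` to a
poly-(torsion-free abelian) group whose kernel acts with trivial edge stabilizers, and with vertex
stabilizers which embed in one poly-(torsion-free abelian) group `Q`. -/
def TreeGroup (G : Type u) [Group G] : Prop :=
  ∃ (X : Type u) (T : SimpleGraph X) (_ : MulAction G X) (E : Type u) (_ : Group E)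
    (Q : Type u) (_ : Group Q) (π : G →* E),
    T.IsTree ∧ (∀ (g : G) (v w : X), T.Adj v w → T.Adj (g • v) (g • w)) ∧
    PolyTFA E ∧ PolyTFA Q ∧
    (∀ v w : X, T.Adj v w → ∀ g : G, π g = 1 → g • v = v → g • w = w → g = 1) ∧
    ∀ v : X, ∃ θ : (MulAction.stabilizer G v ⊓ π.ker : Subgroup G) →* Q, Function.Injective θ

end Pool.Agent.U563.TG
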