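import Mathlib
import Pool.Agent.N506.EY0
import Pool.Agent.U563.TG.Def

/-!
# Groups which act on a tree with edge stabilizers of rank at most one: definition

And the groups which are locally and virtually built from groups of this kind.
-/

namespace Pool.Agent.U563.TG

open Pool.Agent.N506.EX

universe u

/-- `G` acts on a tree `T` by automorphisms, the vertex stabilizers embed in one
poly-(torsion-free abelian) group `Q`, any two nontrivial elements of an edge stabilizer have a
common nontrivial power, and every nontrivial element `g` of an edge stabilizer is visible in the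
adjacent vertex stabilizers: some homomorphism of the vertex stabilizer to the additive group of
real numbers does not vanish at `g`. -/
def CyclicTree (G : Type u) [Group G] : Prop :=
  ∃ (X : Type u) (T : SimpleGraph X) (_ : MulAction G X) (Q : Type u) (_ : Group Q),
    T.IsTree ∧ (∀ (g : G) (v w : X), T.Adj v w → T.Adj (g • v) (g • w)) ∧ PolyTFA Q ∧
    (∀ v : X, ∃ θ : MulAction.stabilizer G v →* Q, Function.Injective θ) ∧
    (∀ v w : X, T.Adj v w → ∀ g h : G, g • v = v → g • w = w → h • v = v → h • w = w →
      g ≠ 1 → ∃ m n : ℤ, n ≠ 0 ∧ h ^ n = g ^ m) ∧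
    ∀ v w : X, T.Adj v w → ∀ (g : G) (hg : g ∈ MulAction.stabilizer G v), g • w = w → g ≠ 1 →
      ∃ l : MulAction.stabilizer G v →* Multiplicative ℝ, l ⟨g, hg⟩ ≠ 1

/-- Every finitely generated subgroup of `G` has a subgroup of finite index which embeds in a finite
direct product of groups, each of which satisfies `TreeGroup` or `CyclicTree`. -/
def LocTree (G : Type u) [Group G] : Prop :=
  ∀ L : Subgroup G, L.FG → ∃ (H : Subgroup L) (ι : Type u) (_ : Finite ι) (S : ι → Type u)
    (_ : ∀ i, Group (S i)) (j : H →* ∀ i, S i),
    H.FiniteIndex ∧ Function.Injective j ∧ ∀ i, TreeGroup (S i) ∨ CyclicTree (S i)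

end Pool.Agent.U563.TG
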