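import Pool.Agent.U563.TG.H

/-!
# The local and virtual form
-/

namespace Pool.Agent.U563.TG

open Pool.Agent.N506.EX Pool.Agent.U563.GP

universe u

/-- Subgroups. -/
theorem CyclicTree.sub {G : Type u} [Group G] (h : CyclicTree G) (H : Subgroup G) :
    CyclicTree H := by
  obtain ⟨X, T, _, Q, _, hT, hG, hQ, hθ, hcyc, hvis⟩ := h
  refine ⟨X, T, inferInstance, Q, inferInstance, hT, fun g v w h => hG g v w h, hQ, fun v => ?_,
    fun v w hvw g h hgv hgw hhv hhw hg => ?_, fun v w hvw g hg hgw h1 => ?_⟩
  · obtain ⟨θ, hθ⟩ := hθ v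
    refine ⟨θ.comp
      { toFun := fun x => ⟨((x : H) : G), x.2⟩
        map_one' := rfl
        map_mul' := fun _ _ => rfl }, ?_⟩
    intro x y hxy
    have h1 := hθ hxy
    exact Subtype.ext (Subtype.ext (congrArg (fun g : MulAction.stabilizer G v => (g : G)) h1))
  · obtain ⟨m, n, hn, hmn⟩ := hcyc v w hvw (g : G) (h : G) hgv hgw hhv hhw
      (fun h2 => hg (Subtype.ext h2))
    exact ⟨m, n, hn, Subtype.ext (by
      rw [Subgroup.coe_zpow, Subgroup.coe_zpow]
      exact hmn)⟩
  · obtain ⟨l, hl⟩ := hvis v w hvw (g : G) hg hgw (fun h2 => h1 (Subtype.ext h2))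
    exact ⟨l.comp
      { toFun := fun x => ⟨((x : H) : G), x.2⟩
        map_one' := rfl
        map_mul' := fun _ _ => rfl }, hl⟩

theorem LocTree.lq {G : Type u} [Group G] (h : LocTree G) (K : Type u) [Field K] : LQ K G := by
  intro L hL
  obtain ⟨H, ι, _, S, _, j, hfi, hj, hS⟩ := h L hL
  have hFG : Group.FG L := (Group.fg_iff_subgroup_fg L).mpr hL
  have hc : Countable L := by
    obtain ⟨α, _, φ, hφ⟩ := Group.fg_iff_exists_freeGroup_hom_surjective_finite.mp hFG
    exact hφ.countable
  refine QE.finiteIndex H ?_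
  -- the images
  let p : ∀ i, H →* S i := fun i => (Pi.evalMonoidHom S i).comp j
  have h1 : ∀ i, QE K (p i).range := by
    intro i
    rcases hS i with h2 | h2
    · exact (h2.qe K).sub (p i).range.subtype (p i).range.subtype_injective
    · have : Countable (p i).range := (p i).rangeRestrict_surjective.countable
      exact (h2.sub (p i).range).qe K
  refine (QE.pi (fun i => (p i).range) h1).sub
    { toFun := fun x i => (p i).rangeRestrict x
      map_one' := by
        funext i
        exact map_one _
      map_mul' := fun x y => by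
        funext i
        exact map_mul _ _ _ } ?_
  intro x y hxy
  apply hj
  funext i
  exact congrArg Subtype.val (congrFun hxy i)

end Pool.Agent.U563.TG
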