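import Pool.Agent.U563.GP.H

/-!
# Graph products with a group of automorphisms of the vertex groups
-/

namespace Pool.Agent.U563.TG

open MonoidAlgebra Pool.Agent.N506.EX Pool.Agent.U563.GP

set_option linter.unusedSectionVars false
universe u v w

variable {V : Type u} [DecidableEq V] [Fintype V] (Γ : SimpleGraph V) [DecidableRel Γ.Adj]
  {P : V → Type u} [∀ v, Group (P v)] {E : Type u} [Group E] (β : ∀ v, E →* MulAut (P v))

/-- The action on the base group. -/
def bact : E →* MulAut (Base P) where
  toFun ε :=
    { toFun := fun f v y => (β v ε (f v y).1, (f v y).2)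
      invFun := fun f v y => (β v ε⁻¹ (f v y).1, (f v y).2)
      left_inv := fun f => by
        funext v y
        simp
      right_inv := fun f => by
        funext v y
        simp
      map_mul' := fun f g => by
        funext v y
        simp }
  map_one' := by
    refine MulEquiv.ext fun f => ?_
    funext v y
    simp
  map_mul' ε ε' := by
    refine MulEquiv.ext fun f => ?_
    funext v y
    simp

theorem bact_apply (ε : E) (f : Base P) (v : V) (y : V → ℤ) :
    bact β ε f v y = (β v ε (f v y).1, (f v y).2) := rfl

theorem bact_act (ε : E) (z : Multiplicative (V → ℤ)) (f : Base P) :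
    bact β ε (act Γ P z f) = act Γ P z (bact β ε f) := by
  funext v y
  rw [act_apply, bact_apply, act_apply, bact_apply]

/-- The action on the target group. -/
def wact : E →* MulAut (WG Γ P) where
  toFun ε :=
    { toFun := fun w => ⟨bact β ε w.left, w.right⟩
      invFun := fun w => ⟨bact β ε⁻¹ w.left, w.right⟩
      left_inv := fun w => by
        refine SemidirectProduct.ext ?_ rfl
        change bact β ε⁻¹ (bact β ε w.left) = w.left
        rw [map_inv]
        exact (bact β ε).symm_apply_apply _
      right_inv := fun w => by
        refine SemidirectProduct.ext ?_ rfl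
        change bact β ε (bact β ε⁻¹ w.left) = w.left
        rw [map_inv]
        exact (bact β ε).apply_symm_apply _
      map_mul' := fun w w' => by
        refine SemidirectProduct.ext ?_ rfl
        change bact β ε (w.left * act Γ P w.right w'.left) =
          bact β ε w.left * act Γ P w.right (bact β ε w'.left)
        rw [map_mul, bact_act] }
  map_one' := by
    refine MulEquiv.ext fun w => ?_
    refine SemidirectProduct.ext ?_ rfl
    change bact β 1 w.left = w.left
    rw [map_one]
    rfl
  map_mul' ε ε' := by
    refine MulEquiv.ext fun w => ?_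
    refine SemidirectProduct.ext ?_ rfl
    change bact β (ε * ε') w.left = bact β ε (bact β ε' w.left)
    rw [map_mul]
    rfl

theorem wact_bb (ε : E) (v : V) (p : P v) (z : Multiplicative ℤ) :
    wact Γ β ε (bb Γ P v (p, z)) = bb Γ P v (β v ε p, z) := by
  refine SemidirectProduct.ext ?_ rfl
  funext u y
  change (β u ε ((bb Γ P v (p, z)).left u y).1, ((bb Γ P v (p, z)).left u y).2) = _
  rw [bb_left, bb_left]
  by_cases h : u = v
  · subst h
    rw [Pi.mulSingle_eq_same, Pi.mulSingle_eq_same]
    by_cases hy : y = 0
    · subst hy
      rw [Pi.mulSingle_eq_same, Pi.mulSingle_eq_same]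
    · rw [Pi.mulSingle_eq_of_ne hy, Pi.mulSingle_eq_of_ne hy]
      simp
  · rw [Pi.mulSingle_eq_of_ne h, Pi.mulSingle_eq_of_ne h]
    simp

theorem wact_tt (ε : E) (v : V) : wact Γ β ε (tt Γ P v) = tt Γ P v := by
  refine SemidirectProduct.ext ?_ rfl
  change bact β ε 1 = 1
  rw [map_one]

theorem wact_tau (ε : E) (v : V) (z : Multiplicative ℤ) :
    wact Γ β ε (tau Γ P v (1, z)) = tau Γ P v (1, z) := by
  rw [tau, map_mul, wact_tt, wact_bb, map_one]

/-- The action on the graph product. -/
noncomputable def gact : E →* MulAut (GraphProd Γ P) where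
  toFun ε :=
    MulEquiv.ofBijective
      (glift Γ (fun v => (gof Γ P v).comp (β v ε).toMonoidHom)
        (fun _ _ h a b => gof_comm Γ h _ _)) (by
      have key : ∀ ε' ε'' : E, ε' * ε'' = 1 → ∀ x,
          glift Γ (fun v => (gof Γ P v).comp (β v ε').toMonoidHom)
            (fun _ _ h a b => gof_comm Γ h _ _)
            (glift Γ (fun v => (gof Γ P v).comp (β v ε'').toMonoidHom)
              (fun _ _ h a b => gof_comm Γ h _ _) x) = x := by
        intro ε' ε'' hε x
        have h1 := ghom_ext Γ ((glift Γ (fun v => (gof Γ P v).comp (β v ε').toMonoidHom)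
            (fun _ _ h a b => gof_comm Γ h _ _)).comp
            (glift Γ (fun v => (gof Γ P v).comp (β v ε'').toMonoidHom)
              (fun _ _ h a b => gof_comm Γ h _ _))) (MonoidHom.id _) (by
          intro v a
          rw [MonoidHom.comp_apply, glift_gof, MonoidHom.comp_apply, glift_gof,
            MonoidHom.comp_apply, MonoidHom.id_apply]
          congr 1
          change (β v ε' * β v ε'') a = a
          rw [← map_mul, hε, map_one]
          rfl)
        exact DFunLike.congr_fun h1 x
      exact Function.bijective_iff_has_inverse.mpr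
        ⟨glift Γ (fun v => (gof Γ P v).comp (β v ε⁻¹).toMonoidHom)
          (fun _ _ h a b => gof_comm Γ h _ _), key _ _ (inv_mul_cancel ε),
          key _ _ (mul_inv_cancel ε)⟩)
  map_one' := by
    refine MulEquiv.ext fun x => ?_
    have h1 := ghom_ext Γ (glift Γ (fun v => (gof Γ P v).comp (β v 1).toMonoidHom)
        (fun _ _ h a b => gof_comm Γ h _ _)) (MonoidHom.id _) (by
      intro v a
      rw [glift_gof, MonoidHom.comp_apply, MonoidHom.id_apply, map_one]
      rfl)
    exact DFunLike.congr_fun h1 x
  map_mul' ε ε' := by
    refine MulEquiv.ext fun x => ?_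
    have h1 := ghom_ext Γ (glift Γ (fun v => (gof Γ P v).comp (β v (ε * ε')).toMonoidHom)
        (fun _ _ h a b => gof_comm Γ h _ _))
        ((glift Γ (fun v => (gof Γ P v).comp (β v ε).toMonoidHom)
            (fun _ _ h a b => gof_comm Γ h _ _)).comp
            (glift Γ (fun v => (gof Γ P v).comp (β v ε').toMonoidHom)
              (fun _ _ h a b => gof_comm Γ h _ _))) (by
      intro v a
      rw [glift_gof, MonoidHom.comp_apply, MonoidHom.comp_apply, glift_gof,
        MonoidHom.comp_apply, glift_gof, MonoidHom.comp_apply, map_mul]
      rfl)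
    exact DFunLike.congr_fun h1 x

theorem gact_gof (ε : E) (v : V) (a : P v) :
    gact Γ β ε (gof Γ P v a) = gof Γ P v (β v ε a) := by
  exact glift_gof Γ (fun v => (gof Γ P v).comp (β v ε).toMonoidHom)
    (fun _ _ h a b => gof_comm Γ h _ _) v a

end Pool.Agent.U563.TG
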