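import Pool.Agent.U563.TG.A

/-!
# Representations of groups with a cocycle in a graph product
-/

namespace Pool.Agent.U563.TG

open MonoidAlgebra Pool.Agent.N506.EX Pool.Agent.U563.GP

set_option linter.unusedSectionVars false
universe u v w

variable {V : Type u} [DecidableEq V] [Fintype V] (Γ : SimpleGraph V) [DecidableRel Γ.Adj]
  {P : V → Type u} [∀ v, Group (P v)] {E : Type u} [Group E] (β : ∀ v, E →* MulAut (P v))
  (K : Type u) [Field K]

/-- The trivial index sets. -/
abbrev QQ (V : Type u) : V → Type u := fun _ => PUnit.{u+1}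

/-- The point. -/
abbrev oo (V : Type u) : ∀ v, QQ V v := fun _ => PUnit.unit

variable (P) in
/-- The regular representation of a vertex group. -/
noncomputable def rr (v : V) : P v →* Matrix (QQ V v) (QQ V v) (MonoidAlgebra K (P v)) where
  toFun p := Matrix.of fun _ _ => MonoidAlgebra.single p 1
  map_one' := by
    ext i j
    rw [Matrix.of_apply, Matrix.one_apply, if_pos (Subsingleton.elim i j)]
    rfl
  map_mul' p q := by
    refine Matrix.ext fun i j => ?_
    rw [Matrix.of_apply, Matrix.mul_apply]
    simp only [Matrix.of_apply, Finset.univ_unique, Finset.sum_singleton,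
      MonoidAlgebra.single_mul_single, mul_one]

theorem rr_apply (v : V) (p : P v) (i j : QQ V v) : rr P K v p i j = MonoidAlgebra.single p 1 := rfl

theorem rr_row (v : V) (c : P v →₀ K)
    (h : ∀ j, c.sum (fun g a => a • rr P K v g (oo V v) j) = 0) : c = 0 := by
  have h1 := h PUnit.unit
  have h2 : MonoidAlgebra.ofCoeff c = 0 := by
    rw [← h1]
    conv_lhs => rw [← MonoidAlgebra.sum_coeff_single (MonoidAlgebra.ofCoeff c)]
    rw [MonoidAlgebra.coeff_ofCoeff]
    refine Finsupp.sum_congr fun g _ => ?_
    rw [rr_apply, MonoidAlgebra.smul_single, smul_eq_mul, mul_one]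
  have h3 := congrArg MonoidAlgebra.coeff h2
  rw [MonoidAlgebra.coeff_ofCoeff] at h3
  exact h3

/-- The automorphism of the group ring of the target group. -/
noncomputable def wal (ε : E) : MonoidAlgebra K (WG Γ P) →ₐ[K] MonoidAlgebra K (WG Γ P) :=
  MonoidAlgebra.mapDomainAlgHom K K (wact Γ β ε).toMonoidHom

theorem wal_single (ε : E) (w : WG Γ P) (a : K) :
    wal Γ β K ε (MonoidAlgebra.single w a) = MonoidAlgebra.single (wact Γ β ε w) a := by
  change MonoidAlgebra.mapDomain _ _ = _
  rw [MonoidAlgebra.mapDomain_single]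
  rfl

theorem wal_io (ε : E) (v : V) (x : MonoidAlgebra K (P v)) :
    wal Γ β K ε (io Γ K v x) = io Γ K v (MonoidAlgebra.mapDomainAlgHom K K
      (β v ε).toMonoidHom x) := by
  induction x using MonoidAlgebra.induction_linear with
  | zero => simp only [map_zero]
  | add x y hx hy => simp only [map_add, hx, hy]
  | single p a =>
    change wal Γ β K ε (MonoidAlgebra.mapDomain _ (MonoidAlgebra.single p a)) =
      MonoidAlgebra.mapDomain _ (MonoidAlgebra.mapDomain _ (MonoidAlgebra.single p a))
    rw [MonoidAlgebra.mapDomain_single, wal_single, MonoidAlgebra.mapDomain_single,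
      MonoidAlgebra.mapDomain_single]
    congr 1
    exact wact_bb Γ β ε v p 1

theorem wal_xx (ε : E) (v : V) (i : QQ V v) :
    wal Γ β K ε (xx Γ P K v i) = xx Γ P K v i := by
  rw [xx, wal_single, wact_tau]

theorem wal_cc (ε : E) (v : V) (b : Matrix (QQ V v) (QQ V v) (MonoidAlgebra K (P v)))
    (s : St (QQ V)) (j : QQ V v) :
    wal Γ β K ε (cc Γ (oo V) v b s j) = cc Γ (oo V) v
      (b.map (MonoidAlgebra.mapDomainAlgHom K K (β v ε).toMonoidHom)) s j := by
  unfold cc
  split_ifs
  · rw [wal_io, Matrix.map_apply]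
  · rw [map_mul, wal_io, wal_xx, Matrix.map_apply]

theorem wal_NN (ε : E) (v : V) (b : Matrix (QQ V v) (QQ V v) (MonoidAlgebra K (P v))) :
    (NN Γ (oo V) v b).map (wal Γ β K ε) = NN Γ (oo V) v
      (b.map (MonoidAlgebra.mapDomainAlgHom K K (β v ε).toMonoidHom)) := by
  refine Matrix.ext fun s' s => ?_
  rw [Matrix.map_apply, NN_apply, NN_apply, map_sum]
  refine Finset.sum_congr rfl fun j _ => ?_
  split_ifs
  · exact wal_cc Γ β K ε v b s' j
  · exact map_zero _

theorem rr_map (ε : E) (v : V) (p : P v) :
    (rr P K v p - 1).map (MonoidAlgebra.mapDomainAlgHom K K (β v ε).toMonoidHom) =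
      rr P K v (β v ε p) - 1 := by
  refine Matrix.ext fun i j => ?_
  rw [Matrix.map_apply, Matrix.sub_apply, Matrix.sub_apply, map_sub, rr_apply, rr_apply,
    Matrix.one_apply, if_pos (Subsingleton.elim i j), map_one]
  congr 1
  change MonoidAlgebra.mapDomain _ _ = _
  rw [MonoidAlgebra.mapDomain_single]
  rfl

/-- The matrices. -/
noncomputable abbrev MX (g : GraphProd Γ P) :
    Matrix (St (QQ V)) (St (QQ V)) (MonoidAlgebra K (WG Γ P)) :=
  Mx Γ (oo V) (rr P K) g

theorem MX_gact (ε : E) (g : GraphProd Γ P) :
    MX Γ K (gact Γ β ε g) = (MX Γ K g).map (wal Γ β K ε) := by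
  have h1 := ghom_ext Γ
    (M := Matrix (St (QQ V)) (St (QQ V)) (MonoidAlgebra K (WG Γ P)))
    { toFun := fun g => MX Γ K (gact Γ β ε g)
      map_one' := by rw [map_one, MX, Mx_one]
      map_mul' := fun g h => by rw [map_mul, MX, Mx_mul] }
    { toFun := fun g => (wal Γ β K ε).mapMatrix (MX Γ K g)
      map_one' := by rw [MX, Mx_one, map_one]
      map_mul' := fun g h => by rw [MX, Mx_mul, map_mul] } (by
    intro v a
    change MX Γ K (gact Γ β ε (gof Γ P v a)) = (MX Γ K (gof Γ P v a)).map (wal Γ β K ε)
    rw [gact_gof, MX, MX, Mx_gof, Mx_gof, Matrix.map_add _ (map_add _), wal_NN, rr_map,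
      Matrix.map_one _ (map_zero _) (map_one _)])
  exact DFunLike.congr_fun h1 g

/-- The larger target group. -/
abbrev WE : Type u := (WG Γ P) ⋊[wact Γ β] E

/-- The inclusion of the group ring. -/
noncomputable def inW : MonoidAlgebra K (WG Γ P) →ₐ[K] MonoidAlgebra K (WE Γ β) :=
  MonoidAlgebra.mapDomainAlgHom K K SemidirectProduct.inl

theorem inW_single (w : WG Γ P) (a : K) : inW Γ β K (MonoidAlgebra.single w a) =
    MonoidAlgebra.single (SemidirectProduct.inl w) a := by
  change MonoidAlgebra.mapDomain _ _ = _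
  rw [MonoidAlgebra.mapDomain_single]

/-- The elements of the acting group. -/
noncomputable def sE (ε : E) : MonoidAlgebra K (WE Γ β) :=
  MonoidAlgebra.single (SemidirectProduct.inr ε) 1

theorem sE_one : sE Γ β K (1 : E) = 1 := by
  rw [sE, map_one]
  rfl

theorem sE_mul (ε ε' : E) : sE Γ β K (ε * ε') = sE Γ β K ε * sE Γ β K ε' := by
  rw [sE, sE, sE, MonoidAlgebra.single_mul_single, map_mul, one_mul]

theorem sE_inW (ε : E) (x : MonoidAlgebra K (WG Γ P)) :
    sE Γ β K ε * inW Γ β K x = inW Γ β K (wal Γ β K ε x) * sE Γ β K ε := by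
  induction x using MonoidAlgebra.induction_linear with
  | zero => simp only [map_zero, mul_zero, zero_mul]
  | add x y hx hy => simp only [map_add, mul_add, add_mul, hx, hy]
  | single w a =>
    rw [wal_single, inW_single, inW_single, sE, MonoidAlgebra.single_mul_single,
      MonoidAlgebra.single_mul_single, one_mul, mul_one]
    congr 1
    rw [SemidirectProduct.inl_aut, map_inv, inv_mul_cancel_right]

open Classical in
theorem inW_coeff (x : MonoidAlgebra K (WG Γ P)) (ε : E) (w : WG Γ P) (ε' : E) :
    (inW Γ β K x * sE Γ β K ε).coeff ⟨w, ε'⟩ = if ε = ε' then x.coeff w else 0 := by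
  classical
  induction x using MonoidAlgebra.induction_linear with
  | zero => simp
  | add x y hx hy =>
    rw [map_add, add_mul, MonoidAlgebra.coeff_add, Finsupp.add_apply, hx, hy,
      MonoidAlgebra.coeff_add, Finsupp.add_apply]
    split_ifs
    · rfl
    · rw [add_zero]
  | single w' a =>
    rw [inW_single, sE, MonoidAlgebra.single_mul_single, mul_one,
      MonoidAlgebra.coeff_single, MonoidAlgebra.coeff_single, Finsupp.single_apply,
      Finsupp.single_apply]
    have h1 : (SemidirectProduct.inl w' * SemidirectProduct.inr ε : WE Γ β) = ⟨w', ε⟩ := by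
      refine SemidirectProduct.ext ?_ ?_
      · rw [SemidirectProduct.mul_left, SemidirectProduct.left_inl, SemidirectProduct.left_inr,
          map_one, mul_one]
      · rw [SemidirectProduct.mul_right, SemidirectProduct.right_inl,
          SemidirectProduct.right_inr, one_mul]
    rw [h1]
    by_cases h2 : w' = w
    · by_cases h3 : ε = ε'
      · rw [if_pos (by rw [h2, h3]), if_pos h3, if_pos h2]
      · rw [if_neg (fun h => h3 (congrArg SemidirectProduct.right h)), if_neg h3]
    · rw [if_neg (fun h => h2 (congrArg SemidirectProduct.left h)), if_neg h2, ite_self]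

theorem polyTFA_WE (hP : ∀ v, PolyTFA (P v)) (hE : PolyTFA E) : PolyTFA (WE Γ β) := by
  refine hE.extension _ SemidirectProduct.rightHom ?_
  have h3 : ∀ g : (SemidirectProduct.rightHom (φ := wact Γ β)).ker, (g : WE Γ β).right = 1 :=
    fun g => g.2
  refine (polyTFA_WG Γ hP).of_injective _
    { toFun := fun g => (g : WE Γ β).left
      map_one' := rfl
      map_mul' := fun a b => ?_ } ?_
  · change (a : WE Γ β).left * (wact Γ β (a : WE Γ β).right) (b : WE Γ β).left = _
    rw [h3 a, map_one]
    rfl
  · intro a b hab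
    exact Subtype.ext (SemidirectProduct.ext hab ((h3 a).trans (h3 b).symm))

/-- Groups with a cocycle in a graph product. -/
theorem QE.cocycle (hP : ∀ v, PolyTFA (P v)) (hE : PolyTFA E) {G : Type u} [Group G]
    (π : G →* E) (L : G → GraphProd Γ P) (hL : ∀ g h, L (g * h) = L g * gact Γ β (π g) (L h))
    (hinj : ∀ g, π g = 1 → L g = 1 → g = 1) : QE K G := by
  classical
  have hL1 : L 1 = 1 := by
    have h1 := hL 1 1
    rw [mul_one, map_one, map_one] at h1
    change L 1 = L 1 * L 1 at h1
    exact (mul_eq_left.mp h1.symm)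
  let ρ : G →* Matrix (St (QQ V)) (St (QQ V)) (MonoidAlgebra K (WE Γ β)) :=
    { toFun := fun g => Matrix.of fun i j => inW Γ β K (MX Γ K (L g) i j) * sE Γ β K (π g)
      map_one' := by
        refine Matrix.ext fun i j => ?_
        rw [Matrix.of_apply, hL1, MX, Mx_one, map_one, sE_one, mul_one, Matrix.one_apply,
          Matrix.one_apply]
        split_ifs
        · exact map_one _
        · exact map_zero _
      map_mul' := fun g h => by
        refine Matrix.ext fun i j => ?_
        rw [Matrix.of_apply, Matrix.mul_apply, hL, MX, Mx_mul, Matrix.mul_apply, map_sum,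
          Finset.sum_mul]
        refine Finset.sum_congr rfl fun k _ => ?_
        rw [Matrix.of_apply, Matrix.of_apply]
        have h1 := congrFun (congrFun (MX_gact Γ β K (π g) (L h)) k) j
        rw [Matrix.map_apply] at h1
        change inW Γ β K (MX Γ K (L g) i k * MX Γ K (gact Γ β (π g) (L h)) k j) * _ = _
        rw [h1, map_mul, map_mul, sE_mul, mul_assoc, mul_assoc, ← mul_assoc _ (sE Γ β K (π g)),
          ← sE_inW, mul_assoc] }
  refine ⟨WE Γ β, inferInstance, St (QQ V), inferInstance, inferInstance, (∅, oo V), ρ,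
    polyTFA_WE Γ β hP hE, ?_⟩
  intro c hc
  -- the part over `ε`
  have key : ∀ ε : E, c.filter (fun g => π g = ε) = 0 := by
    intro ε
    have hLi : Set.InjOn L {g | π g = ε} := by
      intro g hg h hh hgh
      have h1 : π (h⁻¹ * g) = 1 := by
        rw [map_mul, map_inv, hg, hh, inv_mul_cancel]
      have h2 := hL h (h⁻¹ * g)
      rw [mul_inv_cancel_left, hgh] at h2
      have h3 : gact Γ β (π h) (L (h⁻¹ * g)) = 1 := mul_eq_left.mp h2.symm
      have h4 : L (h⁻¹ * g) = 1 := (map_eq_one_iff _ (MulEquiv.injective _)).mp h3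
      have h5 := hinj _ h1 h4
      rw [inv_mul_eq_one] at h5
      exact h5.symm
    have h1 : (c.filter (fun g => π g = ε)).mapDomain L = 0 := by
      refine row_faithful Γ (oo V) (rr P K) (rr_row K) _ fun s => ?_
      refine (Finsupp.sum_mapDomain_index (f := L) (s := c.filter (fun g => π g = ε))
        (h := fun g a => a • MX Γ K g (∅, oo V) s) (fun _ => zero_smul _ _)
        (fun _ _ _ => add_smul _ _ _)).trans ?_
      rw [← MonoidAlgebra.coeff_eq_zero]
      ext w
      have h2 : (c.sum fun g a => a • ρ g (∅, oo V) s).coeff (⟨w, ε⟩ : WE Γ β) = 0 := by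
        rw [hc s]
        rfl
      rw [Finsupp.sum, Pool.Agent.U563.GP.coeff_sum_smul] at h2 ⊢
      rw [Finsupp.coe_zero, Pi.zero_apply]
      rw [Finsupp.support_filter, Finset.sum_filter]
      refine Eq.trans (Finset.sum_congr rfl fun g _ => ?_) h2
      change _ = c g * (inW Γ β K (MX Γ K (L g) (∅, oo V) s) * sE Γ β K (π g)).coeff ⟨w, ε⟩
      rw [inW_coeff]
      by_cases h3 : π g = ε
      · rw [if_pos h3, if_pos h3, Finsupp.filter_apply_pos (fun g => π g = ε) c h3]
      · rw [if_neg h3, if_neg h3, mul_zero]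
    have h2 : ∀ g, c.filter (fun g => π g = ε) g = 0 := by
      intro g
      by_cases h3 : π g = ε
      · have h4 := congrArg (fun x => x (L g)) h1
        simp only [Finsupp.coe_zero, Pi.zero_apply] at h4
        rw [Finsupp.mapDomain, Finsupp.sum, Finsupp.finsetSum_apply] at h4
        by_contra h5
        apply h5
        rw [← h4]
        rw [Finset.sum_eq_single g]
        · rw [Finsupp.single_eq_same]
        · intro b hb hbg
          rw [Finsupp.single_apply, if_neg]
          intro h6
          refine hbg (hLi ?_ h3 h6)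
          have := Finsupp.mem_support_iff.mp hb
          by_contra h7
          exact this (Finsupp.filter_apply_neg (fun g => π g = ε) c h7)
        · intro h6
          rw [Finsupp.notMem_support_iff.mp h6, Finsupp.single_zero, Finsupp.coe_zero,
            Pi.zero_apply]
      · exact Finsupp.filter_apply_neg (fun g => π g = ε) c h3
    ext g
    exact h2 g
  ext g
  have h1 := congrArg (fun x => x g) (key (π g))
  simp only [Finsupp.coe_zero, Pi.zero_apply] at h1
  rw [Finsupp.filter_apply_pos (fun h => π h = π g) c rfl] at h1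
  rw [h1]
  rfl

end Pool.Agent.U563.TG
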