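import Mathlib

/-!
# Potentials on a tree
-/

namespace Pool.Agent.U563.TG

open SimpleGraph

universe u v w

section Par

variable {X : Type u} {T : SimpleGraph X} (hT : T.IsTree) (r w0 : X) (h0 : T.Adj r w0)

/-- `a` is the neighbour of `v` in the direction of the root. -/
def IsPar (T : SimpleGraph X) (r v a : X) : Prop := T.Adj v a ∧ T.dist r v = T.dist r a + 1

include hT in
theorem IsPar.unique {r v a b : X} (ha : IsPar T r v a) (hb : IsPar T r v b) : a = b := by
  classical
  obtain ⟨P, hP, hPl⟩ := (hT.connected r v).exists_path_of_dist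
  have key : ∀ a, IsPar T r v a → a = P.penultimate := by
    intro a ha
    obtain ⟨q, hq, hql⟩ := (hT.connected r a).exists_path_of_dist
    have h1 : v ∉ q.support := by
      intro h
      have h2 := SimpleGraph.dist_le (q.takeUntil v h)
      have h3 := q.length_takeUntil_le_length h
      have h4 := ha.2
      omega
    have h2 : a ∈ P.support :=
      hT.isAcyclic.mem_support_of_ne_mem_support_of_adj_of_isPath hP hq ha.1 h1
    exact hT.isAcyclic.eq_penultimate_of_adj_end hP ha.1 h2
  rw [key a ha, key b hb]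

include hT in
theorem exists_isPar {r v : X} (hv : v ≠ r) : ∃ a, IsPar T r v a := by
  obtain ⟨P, hP, hPl⟩ := (hT.connected r v).exists_path_of_dist
  have hnil : ¬ P.Nil := SimpleGraph.Walk.not_nil_of_ne (Ne.symm hv)
  have hadj : T.Adj v P.penultimate := (P.adj_penultimate hnil).symm
  refine ⟨P.penultimate, hadj, ?_⟩
  rcases hT.dist_eq_dist_add_one_of_adj r hadj with h | h
  · exact h
  · exfalso
    have h1 := SimpleGraph.dist_le P.dropLast
    have h2 : P.dropLast.length + 1 = P.length := SimpleGraph.Walk.length_dropLast_add_one hnil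
    omega

variable (T) in
open Classical in
/-- The parent. -/
noncomputable def par (v : X) : X :=
  if v = r then w0 else if h : ∃ a, IsPar T r v a then h.choose else v

theorem par_root : par T r w0 r = w0 := by
  rw [par, if_pos rfl]

include hT in
theorem isPar_par {v : X} (hv : v ≠ r) : IsPar T r v (par T r w0 v) := by
  have h := exists_isPar hT hv
  rw [par, if_neg hv, dif_pos h]
  exact h.choose_spec

include hT in
theorem par_eq {v a : X} (h : IsPar T r v a) : par T r w0 v = a := by
  have hv : v ≠ r := by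
    rintro rfl
    have := h.2
    rw [SimpleGraph.dist_self] at this
    omega
  exact (isPar_par hT r w0 hv).unique hT h

include hT h0 in
theorem adj_par (v : X) : T.Adj v (par T r w0 v) := by
  by_cases hv : v = r
  · rw [hv, par_root]
    exact h0
  · exact (isPar_par hT r w0 hv).1

include h0 in
theorem isPar_w0 : IsPar T r w0 r := by
  refine ⟨h0.symm, ?_⟩
  rw [SimpleGraph.dist_self, SimpleGraph.dist_eq_one_iff_adj.mpr h0]

variable {Lab : Type v} [Group Lab] (m : X → X → X → Lab)
  (hm : ∀ v a b c, T.Adj v a → T.Adj v b → T.Adj v c → m v a b * m v b c = m v a c)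

include hm in
theorem m_self {v a : X} (ha : T.Adj v a) : m v a a = 1 :=
  mul_eq_left.mp (hm v a a a ha ha ha)

variable (T) in
/-- The labels, by recursion. -/
noncomputable def hh : ℕ → X → Lab
  | 0, _ => 1
  | n + 1, v => hh n (par T r w0 v) * m (par T r w0 v) (par T r w0 (par T r w0 v)) v

variable (T) in
/-- The label of a vertex. -/
noncomputable def hf (v : X) : Lab := hh T r w0 m (T.dist r v) v

theorem hf_root : hf T r w0 m r = 1 := by
  rw [hf, SimpleGraph.dist_self]
  rfl

include hT in
theorem hf_child {v a : X} (h : IsPar T r v a) :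
    hf T r w0 m v = hf T r w0 m a * m a (par T r w0 a) v := by
  rw [hf, h.2, hh, par_eq hT r w0 h]
  rfl

variable (T) in
/-- The potential. -/
noncomputable def HH (v w : X) : Lab := hf T r w0 m v * m v (par T r w0 v) w

include hT hm in
theorem HH_of_isPar {v a : X} (h : IsPar T r v a) :
    HH T r w0 m v a = hf T r w0 m v ∧ HH T r w0 m a v = hf T r w0 m v := by
  refine ⟨?_, ?_⟩
  · rw [HH, par_eq hT r w0 h, m_self m hm h.1, mul_one]
  · rw [HH, hf_child hT r w0 m h]

include hT hm in
theorem HH_symm {v w : X} (h : T.Adj v w) : HH T r w0 m v w = HH T r w0 m w v := by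
  rcases hT.dist_eq_dist_add_one_of_adj r h with h1 | h1
  · obtain ⟨h2, h3⟩ := HH_of_isPar hT r w0 m hm (⟨h, h1⟩ : IsPar T r v w)
    rw [h2, h3]
  · obtain ⟨h2, h3⟩ := HH_of_isPar hT r w0 m hm (⟨h.symm, h1⟩ : IsPar T r w v)
    rw [h2, h3]

include hT h0 hm in
theorem HH_rel {v a b : X} (ha : T.Adj v a) (hb : T.Adj v b) :
    HH T r w0 m v b = HH T r w0 m v a * m v a b := by
  rw [HH, HH, mul_assoc, hm v _ a b (adj_par hT r w0 h0 v) ha hb]

omit hT in
include hm in
theorem HH_root (h0 : T.Adj r w0) : HH T r w0 m r w0 = 1 := by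
  rw [HH, par_root, m_self m hm h0, mul_one, hf_root]

include hT in
/-- Two potentials differ by a constant. -/
theorem rigid {H H' : X → X → Lab}
    (s : ∀ v w, T.Adj v w → H v w = H w v) (s' : ∀ v w, T.Adj v w → H' v w = H' w v)
    (e : ∀ v a b, T.Adj v a → T.Adj v b → H v b = H v a * m v a b)
    (e' : ∀ v a b, T.Adj v a → T.Adj v b → H' v b = H' v a * m v a b)
    {v w v' w' : X} (h : T.Adj v w) (h' : T.Adj v' w') :
    H' v w * (H v w)⁻¹ = H' v' w' * (H v' w')⁻¹ := by
  obtain ⟨p⟩ := hT.connected v v'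
  induction p generalizing w w' with
  | nil =>
    rw [e _ _ _ h h', e' _ _ _ h h', mul_inv_rev]
    group
  | cons h1 p ih =>
    rw [← ih h1.symm h', s _ _ h1.symm, s' _ _ h1.symm, e _ _ _ h1 h, e' _ _ _ h1 h, mul_inv_rev]
    group

end Par

section Nontrivial

variable {X : Type u} {T : SimpleGraph X} (hT : T.IsTree) (r w0 : X) (h0 : T.Adj r w0)
  {ι : Type w} {M : ι → Type v} [∀ i, Group (M i)] (ty : X → ι)
  (hty : ∀ v w, T.Adj v w → ty v ≠ ty w) (μ : ∀ v : X, X → X → M (ty v))
  (hμ : ∀ v a b, T.Adj v a → T.Adj v b → a ≠ b → μ v a b ≠ 1)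
  {Lab : Type*} [Group Lab] (m : X → X → X → Lab) (F : Lab →* Monoid.CoprodI M)
  (hF : ∀ v a b, F (m v a b) = Monoid.CoprodI.of (μ v a b))
  (hm : ∀ v a b c, T.Adj v a → T.Adj v b → T.Adj v c → m v a b * m v b c = m v a c)

include hT h0 hty hμ hF hm in
theorem exists_neWord (n : ℕ) : ∀ v, T.dist r v = n → v ≠ r → v ≠ w0 →
    ∃ (i : ι) (w : Monoid.CoprodI.NeWord M i (ty (par T r w0 v))), w.prod = F (hf T r w0 m v) := by
  induction n with
  | zero =>
    intro v hv hvr _
    exact absurd ((hT.connected.dist_eq_zero_iff).mp hv).symm hvr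
  | succ n ih =>
    intro v hv hvr hvw
    have hp := isPar_par hT r w0 hvr
    obtain ⟨u, hu⟩ : ∃ u, u = par T r w0 v := ⟨_, rfl⟩
    rw [← hu] at hp ⊢
    have hne : par T r w0 u ≠ v := by
      intro h
      by_cases hur : u = r
      · rw [hur, par_root] at h
        exact hvw h.symm
      · have h1 := (isPar_par hT r w0 hur).2
        rw [h] at h1
        have := hp.2
        omega
    have h1 : μ u (par T r w0 u) v ≠ 1 := hμ u _ _ (adj_par hT r w0 h0 u) hp.1.symm hne
    have h2 := hf_child hT r w0 m hp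
    by_cases hur : u = r
    · refine ⟨_, Monoid.CoprodI.NeWord.singleton _ h1, ?_⟩
      rw [Monoid.CoprodI.NeWord.prod_singleton, h2, map_mul, hF]
      rw [show hf T r w0 m u = 1 by rw [hur, hf_root], map_one, one_mul]
    · by_cases huw : u = w0
      · refine ⟨_, Monoid.CoprodI.NeWord.singleton _ h1, ?_⟩
        have h3 : hf T r w0 m u = 1 := by
          rw [huw, hf_child hT r w0 m (isPar_w0 r w0 h0), hf_root, par_root, m_self m hm h0,
            mul_one]
        rw [Monoid.CoprodI.NeWord.prod_singleton, h2, map_mul, hF, h3, map_one, one_mul]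
      · obtain ⟨i, w, hw⟩ := ih u (by have := hp.2; omega) hur huw
        refine ⟨i, w.append (hty _ _ (isPar_par hT r w0 hur).1.symm)
          (Monoid.CoprodI.NeWord.singleton _ h1), ?_⟩
        rw [Monoid.CoprodI.NeWord.append_prod, hw, Monoid.CoprodI.NeWord.prod_singleton, h2,
          map_mul, hF]

theorem neWord_prod_ne_one {i j : ι} (w : Monoid.CoprodI.NeWord M i j) : w.prod ≠ 1 := by
  classical
  intro h
  have h1 : w.toWord = Monoid.CoprodI.Word.empty := by
    apply Monoid.CoprodI.Word.equiv.symm.injective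
    change w.toWord.prod = Monoid.CoprodI.Word.empty.prod
    rw [Monoid.CoprodI.Word.prod_empty]
    exact h
  have h2 := congrArg Monoid.CoprodI.Word.toList h1
  exact w.toList_ne_nil h2

include hT h0 hty hμ hF hm in
theorem hf_ne_one {v : X} (h1 : v ≠ r) (h2 : v ≠ w0) : hf T r w0 m v ≠ 1 := by
  intro h
  obtain ⟨i, w, hw⟩ := exists_neWord hT r w0 h0 ty hty μ hμ m F hF hm _ v rfl h1 h2
  rw [h, map_one] at hw
  exact neWord_prod_ne_one w hw

include hT h0 hty hμ hF hm in
/-- Only the base edge has a trivial label. -/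
theorem HH_eq_one {v w : X} (h : T.Adj v w) (ht : ty v = ty r) (h1 : HH T r w0 m v w = 1) :
    v = r ∧ w = w0 := by
  rcases hT.dist_eq_dist_add_one_of_adj r h with h2 | h2
  · have h3 := (HH_of_isPar hT r w0 m hm (⟨h, h2⟩ : IsPar T r v w)).1
    rw [h1] at h3
    have hvr : v ≠ r := by
      rintro rfl
      rw [SimpleGraph.dist_self] at h2
      omega
    have hvw : v = w0 := by
      by_contra h4
      exact hf_ne_one hT r w0 h0 ty hty μ hμ m F hF hm hvr h4 h3.symm
    rw [hvw] at ht
    exact absurd ht.symm (hty r w0 h0)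
  · have h3 := (HH_of_isPar hT r w0 m hm (⟨h.symm, h2⟩ : IsPar T r w v)).2
    rw [h1] at h3
    have hwr : w ≠ r := by
      rintro rfl
      rw [SimpleGraph.dist_self] at h2
      omega
    have hw : w = w0 := by
      by_contra h4
      exact hf_ne_one hT r w0 h0 ty hty μ hμ m F hF hm hwr h4 h3.symm
    refine ⟨?_, hw⟩
    rw [hw] at h2 h
    exact IsPar.unique hT (⟨h.symm, h2⟩ : IsPar T r w0 v) (isPar_w0 r w0 h0)

end Nontrivial

end Pool.Agent.U563.TG
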