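import Pool.Agent.U563.TG.B
import Pool.Agent.U563.TG.C
import Pool.Agent.U563.TG.Def

/-!
# Groups which act on a tree
-/

namespace Pool.Agent.U563.TG

open MonoidAlgebra Pool.Agent.N506.EX Pool.Agent.U563.GP

set_option linter.unusedSectionVars false
universe u v w

section Angle

variable {X : Type u} {T : SimpleGraph X} {G : Type u} [Group G] [MulAction G X]
  (hG : ∀ (g : G) (v w : X), T.Adj v w → T.Adj (g • v) (g • w))
  {E : Type u} [Group E] (π : G →* E)
  (hedge : ∀ v w : X, T.Adj v w → ∀ g : G, π g = 1 → g • v = v → g • w = w → g = 1)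
  {Q : Type u} [Group Q]
  (θ : ∀ v : X, (MulAction.stabilizer G v ⊓ π.ker : Subgroup G) →* Q)
  (hθ : ∀ v, Function.Injective (θ v))

/-- The stabilizer of a vertex in the kernel. -/
abbrev NN (v : X) : Subgroup G := MulAction.stabilizer G v ⊓ π.ker

/-- Representatives of the orbits of the stabilizers. -/
noncomputable def rp (u w : X) : X :=
  (Quotient.mk (MulAction.orbitRel (NN π u) X) w).out

theorem exists_nn (u w : X) : ∃ n : NN π u, (n : G) • rp π u w = w := by
  have h1 : (MulAction.orbitRel (NN π u) X) w (rp π u w) :=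
    Setoid.symm' _ (Quotient.mk_out (s := MulAction.orbitRel (NN π u) X) w)
  obtain ⟨n, hn⟩ := h1
  exact ⟨n, hn⟩

/-- The transporter. -/
noncomputable def nn (u w : X) : NN π u := (exists_nn π u w).choose

theorem nn_spec (u w : X) : (nn π u w : G) • rp π u w = w := (exists_nn π u w).choose_spec

theorem rp_smul (u w : X) (n : NN π u) : rp π u ((n : G) • w) = rp π u w := by
  unfold rp
  congr 1
  apply Quotient.sound (s := MulAction.orbitRel (NN π u) X)
  exact ⟨n, rfl⟩

include hG in
theorem adj_smul_iff (g : G) (v w : X) : T.Adj (g • v) (g • w) ↔ T.Adj v w := by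
  refine ⟨fun h => ?_, hG g v w⟩
  have := hG g⁻¹ _ _ h
  rwa [inv_smul_smul, inv_smul_smul] at this

include hG hedge in
theorem nn_smul {u w : X} (h : T.Adj u w) (n : NN π u) :
    nn π u ((n : G) • w) = n * nn π u w := by
  have hfix : ∀ k : NN π u, (k : G) • u = u := fun k => (k.2.1 : (k : G) • u = u)
  have hadj : T.Adj u (rp π u w) := by
    rw [← adj_smul_iff hG (nn π u w : G), nn_spec, hfix]
    exact h
  have h1 : (nn π u ((n : G) • w) : G) • rp π u w = (n : G) • w := by
    have := nn_spec π u ((n : G) • w)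
    rwa [rp_smul] at this
  have h2 : ((n * nn π u w : NN π u) : G) • rp π u w = (n : G) • w := by
    rw [Subgroup.coe_mul, mul_smul, nn_spec]
  have h3 : ((n * nn π u w : NN π u) : G)⁻¹ * (nn π u ((n : G) • w) : G) = 1 := by
    refine hedge u _ hadj _ ?_ ?_ ?_
    · rw [map_mul, map_inv, (n * nn π u w : NN π u).2.2, (nn π u ((n : G) • w)).2.2, inv_one,
        one_mul]
    · rw [mul_smul, hfix, inv_smul_eq_iff, hfix]
    · rw [mul_smul, h1, inv_smul_eq_iff, h2]
  rw [inv_mul_eq_one] at h3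
  exact Subtype.ext h3.symm

/-- The position of a neighbour. -/
noncomputable def SS (u w : X) : Q × Multiplicative (X →₀ ℤ) :=
  (θ u (nn π u w), Multiplicative.ofAdd (Finsupp.single (rp π u w) 1))

include hG hedge in
theorem SS_smul {u w : X} (h : T.Adj u w) (n : NN π u) :
    SS π θ u ((n : G) • w) = (θ u n, 1) * SS π θ u w := by
  rw [SS, SS, nn_smul hG π hedge h, rp_smul, map_mul, Prod.mk_mul_mk, one_mul]

include hθ in
theorem SS_inj {u w w' : X} (h : SS π θ u w = SS π θ u w') : w = w' := by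
  have h1 : θ u (nn π u w) = θ u (nn π u w') := congrArg Prod.fst h
  have h2 : Finsupp.single (rp π u w) (1 : ℤ) = Finsupp.single (rp π u w') 1 :=
    Multiplicative.ofAdd.injective (congrArg Prod.snd h)
  have h3 := (Finsupp.single_left_inj one_ne_zero).mp h2
  rw [← nn_spec π u w, ← nn_spec π u w', hθ u h1, h3]

/-- The orbits of pairs. -/
def orb : Setoid (X × E) where
  r x y := ∃ g : G, g • x.1 = y.1 ∧ π g * x.2 = y.2
  iseqv :=
    { refl := fun x => ⟨1, one_smul _ _, by rw [map_one, one_mul]⟩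
      symm := fun {x y} ⟨g, h1, h2⟩ => ⟨g⁻¹, by rw [← h1, inv_smul_smul], by
        rw [← h2, map_inv, inv_mul_cancel_left]⟩
      trans := fun {x y z} ⟨g, h1, h2⟩ ⟨g', h3, h4⟩ => ⟨g' * g, by rw [mul_smul, h1, h3], by
        rw [map_mul, mul_assoc, h2, h4]⟩ }

/-- Representatives of the orbits of pairs. -/
noncomputable def rep (x : X × E) : X × E := (Quotient.mk (orb π) x).out

theorem exists_kk (x : X × E) : ∃ k : G, k • (rep π x).1 = x.1 ∧ π k * (rep π x).2 = x.2 :=
  Quotient.mk_out (s := orb π) x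

/-- The transporter of pairs. -/
noncomputable def kk (x : X × E) : G := (exists_kk π x).choose

theorem kk_spec (x : X × E) : kk π x • (rep π x).1 = x.1 ∧ π (kk π x) * (rep π x).2 = x.2 :=
  (exists_kk π x).choose_spec

theorem rep_smul (g : G) (v : X) (η : E) : rep π (g • v, π g * η) = rep π (v, η) := by
  unfold rep
  congr 1
  apply Quotient.sound (s := orb π)
  exact Setoid.symm' _ ⟨g, rfl, rfl⟩

/-- The angles. -/
noncomputable def mu (v a b : X) : E → Q × Multiplicative (X →₀ ℤ) := fun η =>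
  (SS π θ (rep π (v, η)).1 ((kk π (v, η))⁻¹ • a))⁻¹ *
    SS π θ (rep π (v, η)).1 ((kk π (v, η))⁻¹ • b)

include hG hedge in
theorem ratio {u v a b : X} {k k' : G} (hk : k • u = v) (hk' : k' • u = v) (hπ : π k = π k')
    (ha : T.Adj v a) (hb : T.Adj v b) :
    (SS π θ u (k'⁻¹ • a))⁻¹ * SS π θ u (k'⁻¹ • b) =
      (SS π θ u (k⁻¹ • a))⁻¹ * SS π θ u (k⁻¹ • b) := by
  let n : NN π u := ⟨k'⁻¹ * k, by
    refine Subgroup.mem_inf.mpr ⟨?_, ?_⟩
    · rw [MulAction.mem_stabilizer_iff, mul_smul, hk, inv_smul_eq_iff, hk']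
    · rw [MonoidHom.mem_ker, map_mul, map_inv, hπ, inv_mul_cancel]⟩
  have hn : ∀ x : X, k'⁻¹ • x = (n : G) • (k⁻¹ • x) := by
    intro x
    change _ = (k'⁻¹ * k) • (k⁻¹ • x)
    rw [mul_smul, smul_inv_smul]
  have h1 : ∀ x, T.Adj v x → T.Adj u (k⁻¹ • x) := by
    intro x hx
    rw [← adj_smul_iff hG k, smul_inv_smul, hk]
    exact hx
  rw [hn a, hn b, SS_smul hG π hedge θ (h1 a ha), SS_smul hG π hedge θ (h1 b hb), mul_inv_rev,
    mul_assoc, inv_mul_cancel_left]

include hG hedge in
theorem mu_smul (g : G) {v a b : X} (ha : T.Adj v a) (hb : T.Adj v b) (η : E) :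
    mu π θ (g • v) (g • a) (g • b) (π g * η) = mu π θ v a b η := by
  unfold mu
  obtain ⟨h1, h2⟩ := kk_spec π (v, η)
  obtain ⟨h3, h4⟩ := kk_spec π (g • v, π g * η)
  rw [rep_smul] at h3 h4 ⊢
  have h5 : π (g * kk π (v, η)) = π (kk π (g • v, π g * η)) := by
    have h6 : π (g * kk π (v, η)) * (rep π (v, η)).2 =
        π (kk π (g • v, π g * η)) * (rep π (v, η)).2 := by
      rw [h4, map_mul, mul_assoc, h2]
    exact mul_right_cancel h6
  have h7 := ratio hG π hedge θ (u := (rep π (v, η)).1) (v := g • v) (a := g • a) (b := g • b)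
    (k := g * kk π (v, η)) (by rw [mul_smul, h1]) h3 h5 (hG g _ _ ha) (hG g _ _ hb)
  rw [h7]
  congr 2
  · congr 1
    rw [mul_inv_rev, mul_smul, inv_smul_smul]
  · rw [mul_inv_rev, mul_smul, inv_smul_smul]

theorem mu_mul (v a b c : X) : mu π θ v a b * mu π θ v b c = mu π θ v a c := by
  funext η
  rw [Pi.mul_apply]
  unfold mu
  rw [mul_assoc, mul_inv_cancel_left]

include hθ in
theorem mu_ne_one (v : X) {a b : X} (h : a ≠ b) : mu π θ v a b ≠ 1 := by
  intro h1
  have h2 := congrFun h1 1
  rw [Pi.one_apply] at h2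
  unfold mu at h2
  rw [inv_mul_eq_one] at h2
  exact h (MulAction.injective _ (SS_inj π θ hθ h2))

/-- The translation action. -/
def tra (E : Type u) [Group E] (R : Type u) [Group R] : E →* MulAut (E → R) where
  toFun ε :=
    { toFun := fun F η => F (ε⁻¹ * η)
      invFun := fun F η => F (ε * η)
      left_inv := fun F => by
        funext η
        change F (ε⁻¹ * (ε * η)) = F η
        rw [inv_mul_cancel_left]
      right_inv := fun F => by
        funext η
        change F (ε * (ε⁻¹ * η)) = F η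
        rw [mul_inv_cancel_left]
      map_mul' := fun F F' => rfl }
  map_one' := by
    refine MulEquiv.ext fun F => ?_
    funext η
    change F (1⁻¹ * η) = F η
    rw [inv_one, one_mul]
  map_mul' ε ε' := by
    refine MulEquiv.ext fun F => ?_
    funext η
    change F ((ε * ε')⁻¹ * η) = F (ε'⁻¹ * (ε⁻¹ * η))
    rw [mul_inv_rev, mul_assoc]

theorem tra_apply {R : Type u} [Group R] (ε : E) (F : E → R) (η : E) :
    tra E R ε F η = F (ε⁻¹ * η) := rfl

include hG hedge in
theorem mu_tra (g : G) {v a b : X} (ha : T.Adj v a) (hb : T.Adj v b) :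
    mu π θ (g • v) (g • a) (g • b) = tra E _ (π g) (mu π θ v a b) := by
  funext η
  rw [tra_apply, ← mu_smul hG π hedge θ g ha hb, mul_inv_cancel_left]

end Angle

section Main

variable {X : Type u} {T : SimpleGraph X} (hT : T.IsTree) {G : Type u} [Group G] [MulAction G X]
  (hG : ∀ (g : G) (v w : X), T.Adj v w → T.Adj (g • v) (g • w))
  {E : Type u} [Group E] (π : G →* E)
  (hedge : ∀ v w : X, T.Adj v w → ∀ g : G, π g = 1 → g • v = v → g • w = w → g = 1)
  {Q : Type u} [Group Q]
  (θ : ∀ v : X, (MulAction.stabilizer G v ⊓ π.ker : Subgroup G) →* Q)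
  (hθ : ∀ v, Function.Injective (θ v))

include hT hG hedge hθ in
/-- Actions which preserve the two types of vertices. -/
theorem QE.tree_types (K : Type u) [Field K] (hE : PolyTFA E) (hQ : PolyTFA Q)
    (ty : X → ULift.{u} Bool) (hty : ∀ v w, T.Adj v w → ty v ≠ ty w)
    (htyG : ∀ (g : G) v, ty (g • v) = ty v) {r w0 : X} (h0 : T.Adj r w0) : QE K G := by
  classical
  let R : Type u := Q × Multiplicative (X →₀ ℤ)
  have hR : PolyTFA R := hQ.prod (PolyTFA.comm _)
  let P : ULift.{u} Bool → Type u := fun _ => E → R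
  let Γ : SimpleGraph (ULift.{u} Bool) := ⊥
  let β : ∀ i, E →* MulAut (P i) := fun _ => tra E R
  let m : X → X → X → GraphProd Γ P := fun v a b => gof Γ P (ty v) (mu π θ v a b)
  have hm : ∀ v a b c, T.Adj v a → T.Adj v b → T.Adj v c → m v a b * m v b c = m v a c := by
    intro v a b c _ _ _
    change gof Γ P (ty v) _ * gof Γ P (ty v) _ = gof Γ P (ty v) _
    rw [← map_mul, mu_mul]
  let F : GraphProd Γ P →* Monoid.CoprodI P :=
    glift Γ (fun v => Monoid.CoprodI.of) (fun v w h => absurd h (by simp [Γ]))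
  have hF : ∀ v a b, F (m v a b) = Monoid.CoprodI.of (i := ty v) (mu π θ v a b) := by
    intro v a b
    exact glift_gof Γ _ _ _ _
  have hmG : ∀ (g : G) v a b, T.Adj v a → T.Adj v b →
      m (g • v) (g • a) (g • b) = gact Γ β (π g) (m v a b) := by
    intro g v a b ha hb
    change gof Γ P (ty (g • v)) (mu π θ (g • v) (g • a) (g • b)) =
      gact Γ β (π g) (gof Γ P (ty v) (mu π θ v a b))
    rw [gact_gof, mu_tra hG π hedge θ g ha hb, htyG]
  let H : X → X → GraphProd Γ P := HH T r w0 m
  have hs : ∀ v w, T.Adj v w → H v w = H w v := fun v w h => HH_symm hT r w0 m hm h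
  have he : ∀ v a b, T.Adj v a → T.Adj v b → H v b = H v a * m v a b :=
    fun v a b ha hb => HH_rel hT r w0 h0 m hm ha hb
  have h1 : H r w0 = 1 := HH_root r w0 m hm h0
  refine QE.cocycle Γ β K (fun _ => polyTFA_pi_const hR E) hE π
    (fun g => H (g • r) (g • w0)) ?_ ?_
  · intro g h
    have h2 := rigid hT m (H := H)
      (H' := fun v w => (gact Γ β (π g)).symm (H (g • v) (g • w))) hs
      (fun v w hvw => by rw [hs _ _ (hG g v w hvw)]) he
      (fun v a b ha hb => by
        rw [he _ _ _ (hG g v a ha) (hG g v b hb), map_mul, hmG g v a b ha hb,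
          MulEquiv.symm_apply_apply]) h0 (hG h r w0 h0)
    rw [h1, inv_one, mul_one, eq_mul_inv_iff_mul_eq] at h2
    have h3 := congrArg (gact Γ β (π g)) h2
    rw [map_mul, MulEquiv.apply_symm_apply, MulEquiv.apply_symm_apply] at h3
    change H ((g * h) • r) ((g * h) • w0) = _
    rw [mul_smul, mul_smul]
    exact h3.symm
  · intro g hg hL
    obtain ⟨h2, h3⟩ := HH_eq_one hT r w0 h0 (M := P) ty hty (fun v a b => mu π θ v a b)
      (fun v a b _ _ hab => mu_ne_one π θ hθ v hab) m F hF hm (hG g r w0 h0) (htyG g r) hL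
    exact hedge r w0 h0 g hg h2 h3

end Main

end Pool.Agent.U563.TG
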