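import Pool.Agent.U563.TG.D
import Pool.Agent.U563.GP.I

/-!
# Groups which act on a tree: the general case, products
-/

namespace Pool.Agent.U563.TG

open MonoidAlgebra Pool.Agent.N506.EX Pool.Agent.U563.GP

set_option linter.unusedSectionVars false
universe u v w

section Types

/-- The sign which compares two bits. -/
def sg (a b : Bool) : ℤˣ := if a = b then 1 else -1

theorem sg_mul (a b c : Bool) : sg a b * sg b c = sg a c := by
  cases a <;> cases b <;> cases c <;> decide

theorem sg_self (a : Bool) : sg a a = 1 := by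
  cases a <;> decide

theorem sg_comm (a b : Bool) : sg a b = sg b a := by
  cases a <;> cases b <;> decide

theorem sg_eq_one {a b : Bool} (h : sg a b = 1) : a = b := by
  revert h
  cases a <;> cases b <;> decide

theorem sg_ne {a b a' b' : Bool} (h : a ≠ b) (h' : a' ≠ b') : sg a' a = sg b' b := by
  revert h h'
  cases a <;> cases b <;> cases a' <;> cases b' <;> decide

variable {X : Type u} {T : SimpleGraph X} (hT : T.IsTree) {G : Type u} [Group G] [MulAction G X]
  (hG : ∀ (g : G) (v w : X), T.Adj v w → T.Adj (g • v) (g • w))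

variable (T) in
/-- The type of a vertex. -/
noncomputable def bt (r v : X) : Bool := T.dist r v % 2 = 0

include hT in
theorem bt_ne (r : X) {v w : X} (h : T.Adj v w) : bt T r v ≠ bt T r w := by
  unfold bt
  intro h1
  have h2 := decide_eq_decide.mp h1
  rcases hT.dist_eq_dist_add_one_of_adj r h with h3 | h3 <;> omega

include hT hG in
theorem sg_const (r : X) (g : G) (v w : X) :
    sg (bt T r (g • v)) (bt T r v) = sg (bt T r (g • w)) (bt T r w) := by
  obtain ⟨p⟩ := hT.connected v w
  induction p with
  | nil => rfl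
  | cons h _ ih => rw [← ih]; exact sg_ne (bt_ne hT r h) (bt_ne hT r (hG g _ _ h))

/-- The type homomorphism. -/
noncomputable def chi (r : X) : G →* ℤˣ where
  toFun g := sg (bt T r (g • r)) (bt T r r)
  map_one' := by rw [one_smul, sg_self]
  map_mul' g h := by
    rw [← sg_mul (bt T r ((g * h) • r)) (bt T r (h • r)) (bt T r r), mul_smul,
      sg_const hT hG r g (h • r) r]

include hT hG in
theorem bt_smul (r : X) {g : G} (hg : chi hT hG r g = 1) (v : X) :
    bt T r (g • v) = bt T r v := by
  apply sg_eq_one
  rw [sg_const hT hG r g v r]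
  exact hg

end Types

/-- Groups which act on a tree. -/
theorem TreeGroup.qe {G : Type u} [Group G] (h : TreeGroup G) (K : Type u) [Field K] :
    QE K G := by
  classical
  obtain ⟨X, T, _, E, _, Q, _, π, hT, hG, hE, hQ, hedge, hθ⟩ := h
  choose θ hθ using hθ
  obtain ⟨r⟩ := hT.connected.nonempty
  by_cases hr : ∃ w0, T.Adj r w0
  · obtain ⟨w0, h0⟩ := hr
    let G₀ : Subgroup G := (chi hT hG r).ker
    have hfi : G₀.FiniteIndex := Subgroup.finiteIndex_ker _
    refine QE.finiteIndex G₀ ?_
    have hincl : ∀ v : X, ∀ g : (MulAction.stabilizer G₀ v ⊓ (π.comp G₀.subtype).ker :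
        Subgroup G₀), ((g : G₀) : G) ∈ (MulAction.stabilizer G v ⊓ π.ker : Subgroup G) :=
      fun v g => ⟨g.2.1, g.2.2⟩
    let j : ∀ v : X, (MulAction.stabilizer G₀ v ⊓ (π.comp G₀.subtype).ker : Subgroup G₀) →*
        (MulAction.stabilizer G v ⊓ π.ker : Subgroup G) := fun v =>
      { toFun := fun g => ⟨((g : G₀) : G), hincl v g⟩
        map_one' := rfl
        map_mul' := fun _ _ => rfl }
    have hj : ∀ v, Function.Injective (j v) := fun v a b hab =>
      Subtype.ext (Subtype.ext (congrArg
        (fun g : (MulAction.stabilizer G v ⊓ π.ker : Subgroup G) => (g : G)) hab))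
    refine QE.tree_types hT (G := G₀) (fun g v w h => hG g v w h) (π.comp G₀.subtype)
      (fun v w hvw g h1 h2 h3 => Subtype.ext (hedge v w hvw g h1 h2 h3))
      (fun v => (θ v).comp (j v)) (fun v => (hθ v).comp (hj v)) K hE hQ
      (fun v => ULift.up (bt T r v)) ?_ ?_ h0
    · intro v w hvw h1
      exact bt_ne hT r hvw (ULift.up_injective h1)
    · intro g v
      exact congrArg ULift.up (bt_smul hT hG r g.2 v)
  · -- the tree is a point
    have hX : ∀ v : X, v = r := by
      intro v
      by_contra hv
      obtain ⟨p⟩ := hT.connected r v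
      cases p with
      | nil => exact hv rfl
      | cons h _ => exact hr ⟨_, h⟩
    refine QE.poly K (hE.extension G π ?_)
    refine hQ.of_injective _ ((θ r).comp
      { toFun := fun g => ⟨(g : G), ⟨hX _, g.2⟩⟩
        map_one' := rfl
        map_mul' := fun _ _ => rfl }) ?_
    intro a b hab
    have h1 := hθ r hab
    exact Subtype.ext (congrArg
      (fun g : (MulAction.stabilizer G r ⊓ π.ker : Subgroup G) => (g : G)) h1)

/-- Finite direct products. -/
theorem QE.pi {K : Type u} [Field K] {V : Type u} [Finite V] (G : V → Type v)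
    [∀ v, Group (G v)] (h : ∀ v, QE K (G v)) : QE K (∀ v, G v) := by
  classical
  have : Fintype V := Fintype.ofFinite V
  have hcomm : Pairwise fun i j : V => ∀ (x : G i) (y : G j),
      Commute (gof (⊤ : SimpleGraph V) G i x) (gof (⊤ : SimpleGraph V) G j y) :=
    fun i j hij x y => gof_comm _ ((SimpleGraph.top_adj i j).mpr hij) x y
  let f : (∀ v, G v) →* GraphProd (⊤ : SimpleGraph V) G :=
    MonoidHom.noncommPiCoprod (gof (⊤ : SimpleGraph V) G) hcomm
  let b : GraphProd (⊤ : SimpleGraph V) G →* ∀ v, G v :=
    glift _ (fun v => MonoidHom.mulSingle G v) (fun v w hvw x y =>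
      Pi.mulSingle_commute hvw.ne x y)
  have hbf : b.comp f = MonoidHom.id _ := by
    refine MonoidHom.pi_ext fun i x => ?_
    rw [MonoidHom.comp_apply, MonoidHom.id_apply]
    change b (MonoidHom.noncommPiCoprod (gof (⊤ : SimpleGraph V) G) hcomm (Pi.mulSingle i x)) = _
    rw [MonoidHom.noncommPiCoprod_mulSingle]
    exact glift_gof _ _ _ i x
  refine (QE.graph_fin (⊤ : SimpleGraph V) G h).sub f ?_
  exact Function.LeftInverse.injective (g := b) fun x => DFunLike.congr_fun hbf x

end Pool.Agent.U563.TG
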