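import Pool.Agent.U563.TG.C

/-!
# Extension of homomorphisms from the vertex stabilizers
-/

namespace Pool.Agent.U563.TG

universe u v w

section Pot

variable {X : Type u} {T : SimpleGraph X} (hT : T.IsTree)

variable (T) in
/-- The potential, by recursion. -/
noncomputable def pp {Lab : Type v} [Group Lab] (r : X) (c : X → X → Lab) : ℕ → X → Lab
  | 0, _ => 1
  | n + 1, v => pp r c n (par T r r v) * c (par T r r v) v

include hT in
/-- Potentials on the vertices of a tree. -/
theorem exists_pot {Lab : Type v} [Group Lab] (c : X → X → Lab)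
    (hc : ∀ v w, T.Adj v w → c w v = (c v w)⁻¹) :
    ∃ p : X → Lab, ∀ v w, T.Adj v w → p w = p v * c v w := by
  obtain ⟨r⟩ := hT.connected.nonempty
  have key : ∀ v w, IsPar T r w v → pp T r c (T.dist r w) w =
      pp T r c (T.dist r v) v * c v w := by
    intro v w h
    rw [h.2, pp, par_eq hT r r h]
  refine ⟨fun v => pp T r c (T.dist r v) v, fun v w h => ?_⟩
  change pp T r c (T.dist r w) w = pp T r c (T.dist r v) v * c v w
  rcases hT.dist_eq_dist_add_one_of_adj r h with h1 | h1
  · rw [key w v ⟨h, h1⟩, hc w v h.symm, mul_inv_cancel_right]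
  · exact key v w ⟨h.symm, h1⟩

end Pot

section Ext

variable {X : Type u} {T : SimpleGraph X} (hT : T.IsTree) {G : Type v} [Group G] [MulAction G X]
  (hG : ∀ (g : G) (v w : X), T.Adj v w → T.Adj (g • v) (g • w))
  (ty : X → Bool) (hty : ∀ v w, T.Adj v w → ty v ≠ ty w)
  (htyG : ∀ (g : G) v, ty (g • v) = ty v)
  {Lab : Type w} [Group Lab] (F : ∀ v : X, MulAction.stabilizer G v →* Lab)

variable (G) in
/-- Representatives of the orbits of vertices. -/
noncomputable def rv (v : X) : X := (Quotient.mk (MulAction.orbitRel G X) v).out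

variable (G) in
theorem exists_kv (v : X) : ∃ k : G, k • rv G v = v := by
  have h1 : (MulAction.orbitRel G X) v (rv G v) :=
    Setoid.symm' _ (Quotient.mk_out (s := MulAction.orbitRel G X) v)
  exact h1

variable (G) in
/-- Transporters. -/
noncomputable def kv (v : X) : G := (exists_kv G v).choose

variable (G) in
theorem kv_spec (v : X) : kv G v • rv G v = v := (exists_kv G v).choose_spec

theorem rv_smul (g : G) (v : X) : rv G (g • v) = rv G v := by
  unfold rv
  congr 1
  apply Quotient.sound (s := MulAction.orbitRel G X)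
  exact ⟨g, rfl⟩

theorem gam_mem (g : G) (v : X) :
    (kv G (g • v))⁻¹ * g * kv G v ∈ MulAction.stabilizer G (rv G v) := by
  rw [MulAction.mem_stabilizer_iff, mul_smul, mul_smul, kv_spec, inv_smul_eq_iff]
  conv_lhs => rw [← kv_spec G (g • v), rv_smul]

/-- The value on the transported element. -/
noncomputable def Gam (g : G) (v : X) : Lab :=
  F (rv G v) ⟨(kv G (g • v))⁻¹ * g * kv G v, gam_mem g v⟩

theorem F_congr {u u' : X} (h : u = u') {x x' : G} (hx : x = x')
    (h1 : x ∈ MulAction.stabilizer G u) (h2 : x' ∈ MulAction.stabilizer G u') :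
    F u ⟨x, h1⟩ = F u' ⟨x', h2⟩ := by
  subst h hx
  rfl

theorem Gam_mul (g h : G) (v : X) : Gam F (g * h) v = Gam F g (h • v) * Gam F h v := by
  have h1 : Gam F g (h • v) = F (rv G v) ⟨(kv G (g • h • v))⁻¹ * g * kv G (h • v), by
      have := gam_mem g (h • v)
      rwa [rv_smul] at this⟩ := F_congr F (rv_smul h v) rfl _ _
  rw [h1, Gam, Gam, ← map_mul]
  refine F_congr F rfl ?_ _ _
  rw [mul_smul]
  group

/-- Representatives of the orbits of darts. -/
noncomputable def rd (G : Type v) [Group G] [MulAction G X] (d : X × X) : X × X :=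
  (Quotient.mk (MulAction.orbitRel G (X × X)) d).out

theorem exists_kd (G : Type v) [Group G] [MulAction G X] (d : X × X) :
    ∃ k : G, k • (rd G d).1 = d.1 ∧ k • (rd G d).2 = d.2 := by
  have h1 : (MulAction.orbitRel G (X × X)) d (rd G d) :=
    Setoid.symm' _ (Quotient.mk_out (s := MulAction.orbitRel G (X × X)) d)
  obtain ⟨k, hk⟩ := h1
  exact ⟨k, congrArg Prod.fst hk, congrArg Prod.snd hk⟩

/-- Transporters of darts. -/
noncomputable def kd (G : Type v) [Group G] [MulAction G X] (d : X × X) : G :=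
  (exists_kd G d).choose

theorem kd_spec (G : Type v) [Group G] [MulAction G X] (d : X × X) :
    kd G d • (rd G d).1 = d.1 ∧ kd G d • (rd G d).2 = d.2 := (exists_kd G d).choose_spec

theorem rd_smul (g : G) (v w : X) : rd G (g • v, g • w) = rd G (v, w) := by
  unfold rd
  congr 1
  apply Quotient.sound (s := MulAction.orbitRel G (X × X))
  exact ⟨g, rfl⟩

/-- The transported edge elements. -/
noncomputable def CC (c0 : X × X → Lab) (d : X × X) : Lab :=
  Gam F (kd G d) (rd G d).1 * c0 (rd G d) * (Gam F (kd G d) (rd G d).2)⁻¹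

include hG in
theorem CC_smul (c0 : X × X → Lab) (P : X × X → Prop)
    (hP : ∀ d, P d → P (rd G d))
    (hc0 : ∀ d, P d → ∀ g : G, g • d.1 = d.1 → g • d.2 = d.2 →
      Gam F g d.1 * c0 d = c0 d * Gam F g d.2) (g : G) {v w : X} (h : P (v, w)) :
    CC F c0 (g • v, g • w) = Gam F g v * CC F c0 (v, w) * (Gam F g w)⁻¹ := by
  obtain ⟨h1, h2⟩ := kd_spec G (v, w)
  obtain ⟨h3, h4⟩ := kd_spec G (g • v, g • w)
  unfold CC
  rw [rd_smul] at h3 h4 ⊢
  obtain ⟨⟨a, b⟩, hab⟩ : ∃ e, e = rd G (v, w) := ⟨_, rfl⟩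
  obtain ⟨k, hk⟩ : ∃ k, k = kd G (v, w) := ⟨_, rfl⟩
  obtain ⟨k', hk'⟩ : ∃ k', k' = kd G (g • v, g • w) := ⟨_, rfl⟩
  rw [← hab, ← hk] at h1 h2
  rw [← hab, ← hk'] at h3 h4
  rw [← hk, ← hk', ← hab]
  simp only at h1 h2 h3 h4 ⊢
  obtain ⟨n, hn⟩ : ∃ n, n = (g * k)⁻¹ * k' := ⟨_, rfl⟩
  have hn1 : n • a = a := by
    rw [hn, mul_smul, h3, inv_smul_eq_iff, mul_smul, h1]
  have hn2 : n • b = b := by
    rw [hn, mul_smul, h4, inv_smul_eq_iff, mul_smul, h2]
  have hk2 : k' = g * k * n := by rw [hn, mul_inv_cancel_left]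
  have h5 := hc0 (a, b) (by have := hP _ h; rwa [← hab] at this) n hn1 hn2
  simp only at h5
  rw [hk2, Gam_mul F (g * k) n a, Gam_mul F (g * k) n b, hn1, hn2, Gam_mul F g k a,
    Gam_mul F g k b, h1, h2, mul_inv_rev, mul_inv_rev]
  have h6 : Gam F n a * c0 (a, b) * (Gam F n b)⁻¹ = c0 (a, b) := by
    rw [h5, mul_inv_cancel_right]
  calc Gam F g v * Gam F k a * Gam F n a * c0 (a, b) *
        ((Gam F n b)⁻¹ * ((Gam F k b)⁻¹ * (Gam F g w)⁻¹)) =
      Gam F g v * Gam F k a * (Gam F n a * c0 (a, b) * (Gam F n b)⁻¹) *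
        ((Gam F k b)⁻¹ * (Gam F g w)⁻¹) := by group
    _ = _ := by
      rw [h6]
      group

include hT hG hty htyG in
/-- Homomorphisms of the vertex stabilizers which are conjugate on the edge stabilizers extend. -/
theorem exists_ext
    (hc : ∀ v w, T.Adj v w → ty v = false → ∃ c : Lab, ∀ g : G, g • v = v → g • w = w →
      Gam F g v * c = c * Gam F g w) :
    ∃ π : G →* Lab, ∀ v, ∃ p : Lab, ∀ g : G, g • v = v → π g = p * Gam F g v * p⁻¹ := by
  classical
  let P : X × X → Prop := fun d => T.Adj d.1 d.2 ∧ ty d.1 = false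
  have hP : ∀ d, P d → P (rd G d) := by
    rintro ⟨v, w⟩ ⟨h1, h2⟩
    obtain ⟨h3, h4⟩ := kd_spec G (v, w)
    simp only at h1 h2 h3 h4
    have h5 : (rd G (v, w)).1 = (kd G (v, w))⁻¹ • v := (inv_smul_eq_iff.mpr h3.symm).symm
    have h6 : (rd G (v, w)).2 = (kd G (v, w))⁻¹ • w := (inv_smul_eq_iff.mpr h4.symm).symm
    refine ⟨?_, ?_⟩
    · rw [h5, h6]
      exact hG _ _ _ h1
    · rw [h5, htyG]
      exact h2
  let c0 : X × X → Lab := fun d => if h : P d then (hc d.1 d.2 h.1 h.2).choose else 1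
  have hc0 : ∀ d, P d → ∀ g : G, g • d.1 = d.1 → g • d.2 = d.2 →
      Gam F g d.1 * c0 d = c0 d * Gam F g d.2 := by
    intro d h
    simp only [c0, dif_pos h]
    exact (hc d.1 d.2 h.1 h.2).choose_spec
  let c : X → X → Lab := fun v w => if ty v = false then CC F c0 (v, w) else (CC F c0 (w, v))⁻¹
  have hc1 : ∀ v w, T.Adj v w → c w v = (c v w)⁻¹ := by
    intro v w h
    have h1 := hty v w h
    simp only [c]
    by_cases h2 : ty v = false
    · have h3 : ty w ≠ false := fun h4 => h1 (h2.trans h4.symm)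
      rw [if_pos h2, if_neg h3]
    · have h3 : ty w = false := by
        cases h4 : ty w
        · rfl
        · exfalso
          apply h1
          rw [h4]
          cases h5 : ty v
          · exact absurd h5 h2
          · rfl
      rw [if_neg h2, if_pos h3, inv_inv]
  have hcG : ∀ (g : G) v w, T.Adj v w → c (g • v) (g • w) =
      Gam F g v * c v w * (Gam F g w)⁻¹ := by
    intro g v w h
    simp only [c, htyG]
    by_cases h2 : ty v = false
    · rw [if_pos h2, if_pos h2]
      exact CC_smul hG F c0 P hP hc0 g ⟨h, h2⟩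
    · have h3 : ty w = false := by
        cases h4 : ty w
        · rfl
        · exfalso
          apply hty v w h
          rw [h4]
          cases h5 : ty v
          · exact absurd h5 h2
          · rfl
      rw [if_neg h2, if_neg h2, CC_smul hG F c0 P hP hc0 g ⟨h.symm, h3⟩]
      group
  obtain ⟨p, hp⟩ := exists_pot hT c hc1
  have key : ∀ (g : G) v w, p (g • v) * Gam F g v * (p v)⁻¹ =
      p (g • w) * Gam F g w * (p w)⁻¹ := by
    intro g v w
    obtain ⟨q⟩ := hT.connected v w
    induction q with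
    | nil => rfl
    | @cons a b _ h _ ih =>
      rw [← ih, hp _ _ h, hp _ _ (hG g _ _ h), hcG g _ _ h]
      group
  obtain ⟨r⟩ := hT.connected.nonempty
  refine ⟨{ toFun := fun g => p (g • r) * Gam F g r * (p r)⁻¹
            map_one' := ?_
            map_mul' := fun g h => ?_ }, fun v => ⟨p v, fun g hg => ?_⟩⟩
  · have h1 : Gam F (1 : G) r = 1 := by
      have h2 := Gam_mul F (1 : G) 1 r
      rw [mul_one, one_smul] at h2
      exact mul_eq_left.mp h2.symm
    rw [one_smul, h1, mul_one, mul_inv_cancel]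
  · rw [key g r (h • r), Gam_mul, mul_smul]
    group
  · change p (g • r) * Gam F g r * (p r)⁻¹ = _
    rw [key g r v, hg]

end Ext

end Pool.Agent.U563.TG
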