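import Pool.Agent.U563.TG.E
import Pool.Agent.U563.TG.F
import Pool.Agent.U563.TG.Def2

/-!
# Trees with cyclic edge stabilizers
-/

namespace Pool.Agent.U563.TG

open Pool.Agent.N506.EX Pool.Agent.U563.GP

universe u v w

section Visible

open Cardinal in
/-- On a countable group there is one homomorphism to the real line which does not vanish at the
elements at which some homomorphism does not vanish. -/
theorem exists_generic (S : Type u) [Group S] [Countable S] :
    ∃ l : S →* Multiplicative ℝ, ∀ g : S, (∃ m : S →* Multiplicative ℝ, m g ≠ 1) → l g ≠ 1 := by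
  classical
  let M : Type u := (S →* Multiplicative ℝ) → ℝ
  let ev : S → M := fun g m => Multiplicative.toAdd (m g)
  let W : Submodule ℚ M := Submodule.span ℚ (Set.range ev)
  have h1 : Cardinal.lift.{0} (Module.rank ℚ W) ≤ Cardinal.lift.{u} (Module.rank ℚ ℝ) := by
    rw [Real.rank_rat_real, Cardinal.lift_continuum, Cardinal.lift_id'.{0, u}]
    have h2 : Module.rank ℚ W ≤ #(Set.range ev) := rank_span_le _
    have h3 : #(Set.range ev) ≤ ℵ₀ := (Set.countable_range ev).le_aleph0
    exact h2.trans (h3.trans Cardinal.aleph0_le_continuum)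
  obtain ⟨f, hf⟩ := lift_rank_le_iff_exists_linearMap.mp h1
  have hmem : ∀ g, ev g ∈ W := fun g => Submodule.subset_span ⟨g, rfl⟩
  have h4 : ev 1 = 0 := by
    funext m
    change Multiplicative.toAdd (m 1) = 0
    rw [map_one, toAdd_one]
  have h5 : ∀ g h, ev (g * h) = ev g + ev h := by
    intro g h
    funext m
    change Multiplicative.toAdd (m (g * h)) = Multiplicative.toAdd (m g) + Multiplicative.toAdd (m h)
    rw [map_mul, toAdd_mul]
  refine ⟨{ toFun := fun g => Multiplicative.ofAdd (f ⟨ev g, hmem g⟩)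
            map_one' := ?_
            map_mul' := fun g h => ?_ }, ?_⟩
  · have h6 : (⟨ev 1, hmem 1⟩ : W) = 0 := Subtype.ext h4
    rw [h6, map_zero, ofAdd_zero]
  · have h6 : (⟨ev (g * h), hmem (g * h)⟩ : W) = ⟨ev g, hmem g⟩ + ⟨ev h, hmem h⟩ :=
      Subtype.ext (h5 g h)
    rw [h6, map_add, ofAdd_add]
  · rintro g ⟨m, hm⟩ h6
    apply hm
    have h7 : f ⟨ev g, hmem g⟩ = 0 := congrArg Multiplicative.toAdd h6
    have h8 : (⟨ev g, hmem g⟩ : W) = 0 := hf (by rw [h7, map_zero])
    have h9 : ev g = 0 := congrArg Subtype.val h8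
    have h10 : Multiplicative.toAdd (m g) = 0 := congrFun h9 m
    exact Multiplicative.toAdd.injective (h10.trans toAdd_one.symm)

end Visible

section Label

/-- Dilations. -/
noncomputable def dilU : ℝˣ →* MulAut (Multiplicative ℝ) where
  toFun a :=
    { toFun := fun x => Multiplicative.ofAdd ((a : ℝ) * x.toAdd)
      invFun := fun x => Multiplicative.ofAdd (((a⁻¹ : ℝˣ) : ℝ) * x.toAdd)
      left_inv := fun x => by
        change Multiplicative.ofAdd (((a⁻¹ : ℝˣ) : ℝ) * ((a : ℝ) * x.toAdd)) = x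
        rw [Units.inv_mul_cancel_left]
        rfl
      right_inv := fun x => by
        change Multiplicative.ofAdd ((a : ℝ) * (((a⁻¹ : ℝˣ) : ℝ) * x.toAdd)) = x
        rw [Units.mul_inv_cancel_left]
        rfl
      map_mul' := fun x y => by
        change Multiplicative.ofAdd ((a : ℝ) * (x.toAdd + y.toAdd)) = _
        rw [mul_add]
        rfl }
  map_one' := by
    ext x
    change (((1 : ℝˣ) : ℝ)) * Multiplicative.toAdd x = Multiplicative.toAdd x
    rw [Units.val_one, one_mul]
  map_mul' a b := by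
    ext x
    change (((a * b : ℝˣ) : ℝ)) * Multiplicative.toAdd x = (a : ℝ) * ((b : ℝ) *
      Multiplicative.toAdd x)
    rw [Units.val_mul, mul_assoc]

/-- The exponential with a sign. -/
noncomputable def expS : Multiplicative (ℝ × ℤ) →* ℝˣ where
  toFun s := Units.mk0 (Real.exp s.toAdd.1) (Real.exp_ne_zero _) * (-1) ^ s.toAdd.2
  map_one' := by
    ext
    simp
  map_mul' s t := by
    rw [toAdd_mul, Prod.fst_add, Prod.snd_add, zpow_add]
    have h : Units.mk0 (Real.exp (s.toAdd.1 + t.toAdd.1)) (Real.exp_ne_zero _) =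
        Units.mk0 (Real.exp s.toAdd.1) (Real.exp_ne_zero _) *
        Units.mk0 (Real.exp t.toAdd.1) (Real.exp_ne_zero _) := by
      ext
      rw [Units.val_mk0, Units.val_mul, Units.val_mk0, Units.val_mk0, Real.exp_add]
    rw [h, mul_mul_mul_comm]

theorem exists_expS (a : ℝ) (ha : a ≠ 0) : ∃ s, ((expS s : ℝˣ) : ℝ) = a := by
  rcases lt_or_gt_of_ne ha with h | h
  · refine ⟨Multiplicative.ofAdd (Real.log (-a), 1), ?_⟩
    change ((Units.mk0 (Real.exp (Real.log (-a))) _ * (-1) ^ (1 : ℤ) : ℝˣ) : ℝ) = a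
    rw [zpow_one, Units.val_mul, Units.val_mk0, Real.exp_log (neg_pos.mpr h)]
    simp
  · refine ⟨Multiplicative.ofAdd (Real.log a, 0), ?_⟩
    change ((Units.mk0 (Real.exp (Real.log a)) _ * (-1) ^ (0 : ℤ) : ℝˣ) : ℝ) = a
    rw [zpow_zero, mul_one, Units.val_mk0, Real.exp_log h]

/-- The group of labels. -/
abbrev Lab0 : Type := Multiplicative ℝ ⋊[dilU.comp expS] Multiplicative (ℝ × ℤ)

/-- The group of labels in an arbitrary universe. -/
abbrev Lab1 : Type u := ULift.{u} Lab0

theorem polyTFA_Lab1 : PolyTFA Lab1.{u} := by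
  have h1 : IsMulTorsionFree (ULift.{u} (Multiplicative (ℝ × ℤ))) := inferInstance
  have h2 : IsMulTorsionFree (ULift.{u} (Multiplicative ℝ)) := inferInstance
  refine (PolyTFA.comm (ULift.{u} (Multiplicative (ℝ × ℤ)))).extension Lab1.{u}
    { toFun := fun x => ULift.up x.down.right
      map_one' := rfl
      map_mul' := fun _ _ => rfl } ?_
  refine (PolyTFA.comm (ULift.{u} (Multiplicative ℝ))).of_injective _
    { toFun := fun x => ULift.up (x : Lab1.{u}).down.left
      map_one' := rfl
      map_mul' := ?_ } ?_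
  · rintro ⟨x, hx⟩ ⟨y, hy⟩
    apply ULift.down_injective
    have h3 : x.down.right = 1 := congrArg ULift.down hx
    change (x.down * y.down).left = x.down.left * y.down.left
    rw [SemidirectProduct.mul_left, h3, map_one]
    rfl
  · rintro ⟨x, hx⟩ ⟨y, hy⟩ hxy
    have h3 : x.down.right = 1 := congrArg ULift.down hx
    have h4 : y.down.right = 1 := congrArg ULift.down hy
    have h5 : x.down.left = y.down.left := congrArg ULift.down hxy
    exact Subtype.ext (ULift.down_injective (SemidirectProduct.ext h5 (h3.trans h4.symm)))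

/-- The inclusion of the translations. -/
noncomputable def tr : Multiplicative ℝ →* Lab1.{u} where
  toFun x := ULift.up (SemidirectProduct.inl x)
  map_one' := rfl
  map_mul' x y := by
    apply ULift.down_injective
    exact map_mul SemidirectProduct.inl x y

theorem tr_inj : Function.Injective tr.{u} := by
  intro x y h
  exact SemidirectProduct.inl_injective (congrArg ULift.down h)

theorem exists_dil (a : ℝ) (ha : a ≠ 0) : ∃ c : Lab1.{u}, ∀ x y : Multiplicative ℝ,
    x.toAdd = a * y.toAdd → tr x * c = c * tr y := by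
  obtain ⟨s, hs⟩ := exists_expS a ha
  refine ⟨ULift.up (SemidirectProduct.inr s), fun x y h => ?_⟩
  apply ULift.down_injective
  change (SemidirectProduct.inl x * SemidirectProduct.inr s : Lab0) =
    SemidirectProduct.inr s * SemidirectProduct.inl y
  have h1 : ((dilU.comp expS) s) y = x := by
    change Multiplicative.ofAdd (((expS s : ℝˣ) : ℝ) * y.toAdd) = x
    rw [hs, ← h]
    rfl
  rw [← h1, SemidirectProduct.inl_aut, map_inv, inv_mul_cancel_right]

end Label

/-- Groups which act on a tree with edge stabilizers of rank at most one. -/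
theorem CyclicTree.qe {G : Type u} [Group G] [Countable G] (h : CyclicTree G)
    (K : Type u) [Field K] : QE K G := by
  classical
  obtain ⟨X, T, _, Q, _, hT, hG, hQ, hθ, hcyc, hvis⟩ := h
  choose θ hθ using hθ
  obtain ⟨r⟩ := hT.connected.nonempty
  let G₀ : Subgroup G := (chi hT hG r).ker
  have hfi : G₀.FiniteIndex := Subgroup.finiteIndex_ker _
  refine QE.finiteIndex G₀ (TreeGroup.qe ?_ K)
  choose l hl using fun v : X => exists_generic (MulAction.stabilizer G₀ v)
  have hl' : ∀ v w, T.Adj v w → ∀ (g : G₀) (hg : g ∈ MulAction.stabilizer G₀ v), g • w = w →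
      g ≠ 1 → l v ⟨g, hg⟩ ≠ 1 := by
    intro v w hvw g hg hw h1
    apply hl
    obtain ⟨m, hm⟩ := hvis v w hvw (g : G) hg hw (fun h2 => h1 (Subtype.ext h2))
    exact ⟨m.comp
      { toFun := fun x => ⟨((x : G₀) : G), x.2⟩
        map_one' := rfl
        map_mul' := fun _ _ => rfl }, hm⟩
  -- the values on the stabilizers
  have hGl1 : ∀ v, Gam l (1 : G₀) v = 1 := by
    intro v
    have h2 := Gam_mul l (1 : G₀) 1 v
    rw [mul_one, one_smul] at h2
    exact mul_eq_left.mp h2.symm
  let gl : ∀ v : X, MulAction.stabilizer G₀ v →* Multiplicative ℝ := fun v =>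
    { toFun := fun g => Gam l (g : G₀) v
      map_one' := hGl1 v
      map_mul' := fun g h => by
        change Gam l ((g : G₀) * (h : G₀)) v = _
        rw [Gam_mul, MulAction.mem_stabilizer_iff.mp h.2] }
  have hGl : ∀ v w, T.Adj v w → ∀ g : G₀, g • v = v → g • w = w → g ≠ 1 → Gam l g v ≠ 1 := by
    intro v w hvw g hv hw hg
    unfold Gam
    have h1 : ((kv G₀ v)⁻¹ • v : X) = rv G₀ v := by
      rw [inv_smul_eq_iff, kv_spec]
    have h2 : T.Adj (rv G₀ v) ((kv G₀ v)⁻¹ • w) := by
      rw [← h1]
      exact hG _ _ _ hvw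
    refine hl' _ _ h2 _ _ ?_ ?_
    · rw [hv, mul_smul, mul_smul, smul_inv_smul, hw]
    · rw [hv]
      intro h3
      apply hg
      have h4 : g * kv G₀ v = kv G₀ v := by
        have := mul_eq_one_iff_inv_eq.mp ((mul_assoc _ _ _).symm.trans h3)
        rw [inv_inv] at this
        exact this.symm
      exact mul_eq_right.mp h4
  let F : ∀ v : X, MulAction.stabilizer G₀ v →* Lab1.{u} := fun v => tr.comp (l v)
  have hF : ∀ (g : G₀) (v : X), Gam F g v = tr (Gam l g v) := fun _ _ => rfl
  have hc : ∀ v w, T.Adj v w → bt T r v = false → ∃ c : Lab1.{u}, ∀ g : G₀, g • v = v → g • w = w →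
      Gam F g v * c = c * Gam F g w := by
    intro v w hvw _
    by_cases h0 : ∃ g0 : G₀, g0 • v = v ∧ g0 • w = w ∧ g0 ≠ 1
    · obtain ⟨g0, hv0, hw0, hg0⟩ := h0
      have ha : (Gam l g0 v).toAdd ≠ 0 := fun h1 => hGl v w hvw g0 hv0 hw0 hg0
        (Multiplicative.toAdd.injective (h1.trans toAdd_one.symm))
      have hb : (Gam l g0 w).toAdd ≠ 0 := fun h1 => hGl w v hvw.symm g0 hw0 hv0 hg0
        (Multiplicative.toAdd.injective (h1.trans toAdd_one.symm))
      obtain ⟨c, hc⟩ := exists_dil ((Gam l g0 v).toAdd / (Gam l g0 w).toAdd) (div_ne_zero ha hb)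
      refine ⟨c, fun g hv hw => ?_⟩
      rw [hF, hF]
      apply hc
      obtain ⟨m, n, hn, hmn⟩ := hcyc v w hvw (g0 : G) (g : G) hv0 hw0 hv hw
        (fun h2 => hg0 (Subtype.ext h2))
      have hmn' : g ^ n = g0 ^ m := Subtype.ext (by
        rw [Subgroup.coe_zpow, Subgroup.coe_zpow]
        exact hmn)
      have e1 : ∀ (z : X) (hz : g • z = z) (hz0 : g0 • z = z),
          (n : ℝ) * (Gam l g z).toAdd = m * (Gam l g0 z).toAdd := by
        intro z hz hz0
        have h1 : (⟨g, hz⟩ : MulAction.stabilizer G₀ z) ^ n = ⟨g0, hz0⟩ ^ m := Subtype.ext (by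
          rw [Subgroup.coe_zpow, Subgroup.coe_zpow]
          exact hmn')
        have h2 := congrArg (fun x => Multiplicative.toAdd (gl z x)) h1
        simp only [map_zpow, toAdd_zpow, zsmul_eq_mul] at h2
        exact h2
      have e2 := e1 v hv hv0
      have e3 := e1 w hw hw0
      have hn' : (n : ℝ) ≠ 0 := Int.cast_ne_zero.mpr hn
      apply mul_left_cancel₀ hn'
      rw [e2, mul_left_comm, e3]
      field_simp
    · refine ⟨1, fun g hv hw => ?_⟩
      have h1 : g = 1 := by
        by_contra h2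
        exact h0 ⟨g, hv, hw, h2⟩
      rw [h1, hF, hF, hGl1, hGl1, map_one, mul_one]
  obtain ⟨π, hπ⟩ := exists_ext hT (G := G₀) (fun g v w h => hG g v w h) (bt T r)
    (fun v w h => bt_ne hT r h) (fun g v => bt_smul hT hG r g.2 v) F hc
  refine ⟨X, T, inferInstance, Lab1.{u}, inferInstance, Q, inferInstance, π, hT,
    fun g v w h => hG g v w h, polyTFA_Lab1, hQ, ?_, fun v => ⟨(θ v).comp
      { toFun := fun x => ⟨((x : G₀) : G), x.2.1⟩
        map_one' := rfl
        map_mul' := fun _ _ => rfl }, ?_⟩⟩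
  · intro v w hvw g hg hv hw
    by_contra h1
    obtain ⟨p, hp⟩ := hπ v
    have h2 := hp g hv
    rw [hg, eq_comm, mul_inv_eq_one, mul_eq_left] at h2
    exact hGl v w hvw g hv hw h1 (tr_inj (h2.trans (map_one tr).symm))
  · intro x y hxy
    have h1 := hθ v hxy
    exact Subtype.ext (Subtype.ext (congrArg
      (fun g : MulAction.stabilizer G v => (g : G)) h1))

end Pool.Agent.U563.TG
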